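import Mathlib
import Pool.Agent.X217.EK.PenM
import Pool.Agent.TH841.TR.Fin2

/-!
# The central limit theorem for the Tate-Shafarevich groups in one-parameter families

`E_t : y² = x (x - D(t) u₀(t)) (x - D(t) u₁(t))`, where `u₀`, `u₁` and `u₂ = u₀ - u₁` are polynomials
with integer coefficients, `u_k` being a constant times a product of `n_k` irreducible polynomials,
and `D` is a constant times a product of irreducible polynomials `g_i`, all these irreducible
polynomials being pairwise different; there is no condition on the degrees. `E'_t` is the quotient of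
`E_t` by its subgroup generated by `(0, 0)`. There are explicit constants `κ` and `V` such that
`(log₂ #Ш(E'_t)[2 ^ j] - κ log log M) / √(V log log M)`, for `N < t ≤ N + M`, converges in distribution
to the standard Gaussian variable as `M → ∞`, uniformly in `|N| ≤ M ^ L` and in `j`, as long as
`j / √(log log M) → 0`. This covers the quadratic twists of a given curve by the values of any
polynomial.
-/

set_option autoImplicit false

namespace Pool.Agent.Results.MP_e23604_nt.GaussianShaPencils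

open Finset Polynomial Filter Topology ProbabilityTheory

open Pool.Agent.TH841.SH.D (Sha ShaTor)

/-- the quotient of `y² = x (x - A) (x - B)` by its subgroup generated by `(0, 0)`: the curve
`y² = x³ + 2 (A + B) x² + (A - B)² x` over `ℚ` -/
def E' (A B : ℤ) : WeierstrassCurve ℚ := ⟨0, 2 * ((A : ℚ) + B), 0, ((A : ℚ) - B) ^ 2, 0⟩

/-- `u_k = a_k ∏ f_{k,i}` -/
noncomputable def u {n : Fin 3 → ℕ} (a : Fin 3 → ℤ) (f : ∀ k : Fin 3, Fin (n k) → ℤ[X])
    (k : Fin 3) : ℤ[X] := C (a k) * ∏ i, f k i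

/-- `D = c ∏ g_i` -/
noncomputable def D {m : ℕ} (c : ℤ) (g : Fin m → ℤ[X]) : ℤ[X] := C c * ∏ i, g i

/-- `v` is a square modulo `f`, over the rationals -/
def SqMod (f v : ℤ[X]) : Prop := ∃ q : ℚ[X], f.map (Int.castRingHom ℚ) ∣
  (q ^ 2 - v.map (Int.castRingHom ℚ))

/-- modulo a factor `f` of `u_k`, the curve `y² = x (x - D u₀) (x - D u₁)` has a node whose tangent
directions are the square roots of `v_k`; so the reduction at `f` is split if and only if `v_k` is a
square modulo `f` -/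
noncomputable def v {n : Fin 3 → ℕ} (D : ℤ[X]) (a : Fin 3 → ℤ)
    (f : ∀ k : Fin 3, Fin (n k) → ℤ[X]) : Fin 3 → ℤ[X] :=
  ![-(D * u a f 1), -(D * u a f 0), D * u a f 0]

open Classical in
/-- the number of the factors of `u_k` with split multiplicative reduction -/
noncomputable def s {n : Fin 3 → ℕ} (D : ℤ[X]) (a : Fin 3 → ℤ)
    (f : ∀ k : Fin 3, Fin (n k) → ℤ[X]) (k : Fin 3) : ℕ :=
  (univ.filter (fun i => SqMod (f k i) (v D a f k))).card

open Classical in
/-- the number `r` of the `i` such that `u₀ u₁` is not a square modulo `g_i` -/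
noncomputable def r {n : Fin 3 → ℕ} {m : ℕ} (a : Fin 3 → ℤ) (f : ∀ k : Fin 3, Fin (n k) → ℤ[X])
    (g : Fin m → ℤ[X]) : ℕ :=
  (univ.filter (fun i => ¬ SqMod (g i) (u a f 0 * u a f 1))).card

/-- the constant `κ = n₀ + n₁ - (n₂ + s₂) / 2 + r / 2` -/
noncomputable def κ {n : Fin 3 → ℕ} {m : ℕ} (a : Fin 3 → ℤ) (f : ∀ k : Fin 3, Fin (n k) → ℤ[X])
    (c : ℤ) (g : Fin m → ℤ[X]) : ℝ :=
  (n 0 : ℝ) + n 1 - ((n 2 : ℝ) + s (D c g) a f 2) / 2 + (r a f g : ℝ) / 2

/-- the constant `V = n₀ + n₁ + (n₂ + s₂) / 2 + r / 2` -/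
noncomputable def V {n : Fin 3 → ℕ} {m : ℕ} (a : Fin 3 → ℤ) (f : ∀ k : Fin 3, Fin (n k) → ℤ[X])
    (c : ℤ) (g : Fin m → ℤ[X]) : ℝ :=
  (n 0 : ℝ) + n 1 + ((n 2 : ℝ) + s (D c g) a f 2) / 2 + (r a f g : ℝ) / 2

/-- `log₂ #Ш(E'_t)[2 ^ j]` -/
noncomputable def Lg {n : Fin 3 → ℕ} {m : ℕ} (a : Fin 3 → ℤ) (f : ∀ k : Fin 3, Fin (n k) → ℤ[X])
    (c : ℤ) (g : Fin m → ℤ[X]) (j : ℕ) (t : ℤ) : ℝ :=
  Real.logb 2 (Nat.card (ShaTor (E' ((D c g * u a f 0).eval t) ((D c g * u a f 1).eval t)) (2 ^ j)))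

open Classical in
/-- **Theorem.** Let `u_k = a_k ∏_{i < n_k} f_{k,i}`, `k = 0, 1, 2`, be polynomials with integer
coefficients with `u₀ - u₁ = u₂` and let `D = c ∏ g_i`, where `a_k, c ≠ 0` and the `f_{k,i}`, `g_i` are
irreducible polynomials of positive degree, pairwise non-associated. Let `s_k` be the number of the
`i` such that `E : y² = x (x - D u₀) (x - D u₁)` has split multiplicative reduction at `f_{k,i}`.
Assume that `2 n_k < n₀ + n₁ + n₂` for `k = 0, 1, 2`, or that `2 n_k + s_k ≤ n₀ + n₁ + n₂` for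
`k = 0, 1, 2`. The groups `Ш(E'_t)[2 ^ j]` are finite, if `D u₀ u₁ u₂` does not vanish at `t`. Assume
that `V > 0`. Let `N_M` and `J_M ≥ 1` be sequences of integers with `|N_M| ≤ M ^ L` and
`J_M / √(log log M) → 0`. For all real `x` the proportion of the `t`, `N_M < t ≤ N_M + M`, for which
`log₂ #Ш(E'_t)[2 ^ J_M] ≤ κ log log M + x √(V log log M)` tends to `Φ(x)`, where `Φ` is the distribution
function of the standard Gaussian variable. -/
theorem result {n : Fin 3 → ℕ} {m : ℕ} (a : Fin 3 → ℤ) (f : ∀ k : Fin 3, Fin (n k) → ℤ[X])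
    (c : ℤ) (g : Fin m → ℤ[X]) (ha : ∀ k, a k ≠ 0) (hc : c ≠ 0)
    (hf : ∀ k i, Irreducible (f k i) ∧ 0 < (f k i).natDegree)
    (hg : ∀ i, Irreducible (g i) ∧ 0 < (g i).natDegree)
    (hff : ∀ k i l j, (⟨k, i⟩ : Σ k : Fin 3, Fin (n k)) ≠ ⟨l, j⟩ → ¬ Associated (f k i) (f l j))
    (hgg : ∀ i j, i ≠ j → ¬ Associated (g i) (g j)) (hfg : ∀ k i j, ¬ Associated (f k i) (g j))
    (hu : u a f 0 - u a f 1 = u a f 2)
    (hn : (∀ k, 2 * n k < n 0 + n 1 + n 2) ∨
      ∀ k, 2 * n k + s (D c g) a f k ≤ n 0 + n 1 + n 2) :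
    (∀ t : ℤ, (∀ k, (D c g * u a f k).eval t ≠ 0) → ∀ j : ℕ, 1 ≤ j →
      Finite (ShaTor (E' ((D c g * u a f 0).eval t) ((D c g * u a f 1).eval t)) (2 ^ j))) ∧
    (0 < V a f c g → ∀ (L : ℕ) (N : ℕ → ℤ), (∀ M : ℕ, |N M| ≤ (M : ℤ) ^ L) →
      ∀ J : ℕ → ℕ, (∀ M, 1 ≤ J M) →
      Tendsto (fun M : ℕ => (J M : ℝ) / √(Real.log (Real.log M))) atTop (𝓝 0) → ∀ x : ℝ,
      Tendsto (fun M : ℕ => (((Ioc (N M) (N M + (M : ℤ))).filter (fun t =>
        Lg a f c g (J M) t ≤ κ a f c g * Real.log (Real.log M) +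
          x * √(V a f c g * Real.log (Real.log M)))).card : ℝ) / M) atTop
        (𝓝 ((gaussianReal 0 1).real (Set.Iic x)))) := by
  have hirr : Pool.Agent.TH841.PT.Irr (Pool.Agent.TH841.TR.allf g f) := by
    refine ⟨?_, ?_, ?_⟩
    · rintro (x | x)
      · exact (hf x.1 x.2).1
      · exact (hg x).1
    · rintro (x | x)
      · exact (hf x.1 x.2).2
      · exact (hg x).2
    · rintro (x | x) (y | y) hne has
      · exact hff x.1 x.2 y.1 y.2 (fun h => hne (by rw [show x = y from h])) has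
      · exact hfg x.1 x.2 y has
      · exact hfg y.1 y.2 x has.symm
      · exact hgg x y (fun h => hne (by rw [h])) has
  have hn' : (∀ k, 2 * n k < n 0 + n 1 + n 2) ∨
      Pool.Agent.TH841.TR.Bal (Pool.Agent.TH841.LS.DG c g) a f := by
    rcases hn with hn | hn
    · exact Or.inl hn
    · exact Or.inr (Pool.Agent.TH841.TR.bal_of (v := v (D c g) a f) rfl rfl rfl hn)
  refine ⟨fun t ht j hj => ?_, fun hV L N hN J hJ1 hJ x => ?_⟩
  · have h0 := ht 0
    have h1 := ht 1
    have h2 := ht 2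
    have hne : (D c g * u a f 0).eval t ≠ (D c g * u a f 1).eval t := by
      rw [← sub_ne_zero, ← eval_sub, ← mul_sub, hu]
      exact h2
    obtain ⟨R, hR⟩ := pow_unbounded_of_one_lt
      (Pool.Agent.W307.SE.SN ((D c g * u a f 0).eval t) ((D c g * u a f 1).eval t))
      (one_lt_two : (1 : ℝ) < 2)
    exact (Pool.Agent.X217.EK.two h0 h1 hne (R := R)
      (hR.trans_le (pow_le_pow_right₀ (by norm_num) (by omega))) hj).1
  · have h := Pool.Agent.X217.EK.main_pencil a f c g ha hc hirr hu hn' hV L N hN hJ1 hJ x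
    refine (tendsto_congr' ?_).1 h
    filter_upwards [Pool.Agent.X217.EK.tendsto_ell.eventually_gt_atTop 0] with M hM
    have hs : 0 < √(V a f c g * Pool.Agent.X217.EK.ell M) := Real.sqrt_pos.2 (by positivity)
    congr 3
    refine Finset.filter_congr fun t _ => ?_
    rw [div_le_iff₀ (show 0 < √(Pool.Agent.X217.EK.vc a f c g * Pool.Agent.X217.EK.ell M) from hs),
      sub_le_iff_le_add']
    rfl

end Pool.Agent.Results.MP_e23604_nt.GaussianShaPencils
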