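import Pool.Agent.X217.EK.Fin

/-!
# The Tate-Shafarevich groups of the three quotients are asymptotically independent and Gaussian

Every elliptic curve over `ℚ` with full rational 2-torsion is isomorphic to a curve
`E : y² = x (x - A) (x - B)` with positive integers `A ≠ B`.  Let `E'_0, E'_1, E'_2` be its three
quotients by the subgroups of order two.  When `A, B` run through the integers from `1` to `X`, the
three variables
`(log₂ #Ш(E'_i)[2 ^ j] - (3 / 2) log log X) / √((5 / 2) log log X)`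
converge, as `X → ∞`, in distribution to three *independent* standard Gaussian variables, for every
fixed `j ≥ 1`, and even when `j = J(X)` varies with `X` as long as `J(X) / √(log log X) → 0`.
-/

set_option autoImplicit false

namespace Pool.Agent.Results.MP_e23604_nt.GaussianShaThreeQuotients

open Filter Topology WeierstrassCurve Pool.Agent.TH841.SH.D ProbabilityTheory

/-- the quotient of `y² = x (x - a) (x - b)` by its subgroup generated by `(0, 0)`: the curve
`y² = x³ + 2 (a + b) x² + (a - b)² x` -/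
def Q (a b : ℤ) : WeierstrassCurve ℚ := ⟨0, 2 * ((a : ℚ) + b), 0, ((a : ℚ) - b) ^ 2, 0⟩

/-- the quotients of `y² = x (x - A) (x - B)` by the subgroups generated by the points `(0, 0)`,
`(A, 0)` and `(B, 0)` of order two -/
def E' (i : Fin 3) (A B : ℤ) : WeierstrassCurve ℚ := ![Q A B, Q (-A) (B - A), Q (-B) (A - B)] i

lemma E'_eq (i : Fin 3) (A B : ℤ) : E' i A B =
    Pool.Agent.TH841.LS.WI (Pool.Agent.Y676.IS.tri i A B).1 (Pool.Agent.Y676.IS.tri i A B).2 := by
  fin_cases i <;> rfl

/-- `log₂ #Ш(E'_i)[2 ^ j]` -/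
noncomputable def L (j : ℕ) (i : Fin 3) (A B : ℤ) : ℝ :=
  Real.logb 2 (Nat.card (ShaTor (E' i A B) (2 ^ j)))

open Classical in
/-- **Main theorem.** All the groups `Ш(E'_i)[2 ^ j]` are finite, and for every sequence `J(X) ≥ 1` of
integers with `J(X) / √(log log X) → 0` and all real numbers `z_0, z_1, z_2` the proportion of the
pairs `(A, B)` of integers from `1` to `X`, for which `A ≠ B` and
`log₂ #Ш(E'_i)[2 ^ J(X)] ≤ (3 / 2) log log X + z_i √((5 / 2) log log X)` for `i = 0, 1, 2`, tends to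
the product of the three numbers `Φ(z_i)`, where `Φ` is the distribution function of the standard
Gaussian variable. -/
theorem result :
    (∀ A B : ℤ, A ≠ 0 → B ≠ 0 → A ≠ B → ∀ i : Fin 3, ∀ j : ℕ, 1 ≤ j →
      Finite (ShaTor (E' i A B) (2 ^ j))) ∧
    ∀ J : ℕ → ℕ, (∀ X, 1 ≤ J X) →
      Tendsto (fun X : ℕ => (J X : ℝ) / √(Real.log (Real.log X))) atTop (𝓝 0) →
      ∀ z : Fin 3 → ℝ,
        Tendsto (fun X : ℕ => (((Finset.Icc (1 : ℤ) X ×ˢ Finset.Icc (1 : ℤ) X).filter
          (fun t : ℤ × ℤ => t.1 ≠ t.2 ∧ ∀ i : Fin 3, L (J X) i t.1 t.2 ≤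
            3 / 2 * Real.log (Real.log X) + z i * √(5 / 2 * Real.log (Real.log X)))).card : ℝ) /
          (X : ℝ) ^ 2) atTop
          (𝓝 (∏ i : Fin 3, (gaussianReal 0 1).real (Set.Iic (z i)))) := by
  refine ⟨fun A B hA hB hAB i j hj => ?_, fun J hJ1 hJ z => ?_⟩
  · rw [E'_eq]
    obtain ⟨h1, h2, h3⟩ := Pool.Agent.Y676.IS.tri_ne hA hB hAB i
    obtain ⟨R, hR⟩ := pow_unbounded_of_one_lt
      (Pool.Agent.W307.SE.SN (Pool.Agent.Y676.IS.tri i A B).1 (Pool.Agent.Y676.IS.tri i A B).2)
      (one_lt_two : (1 : ℝ) < 2)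
    exact (Pool.Agent.X217.EK.one h1 h2 h3 (R := R)
      (hR.trans_le (pow_le_pow_right₀ (by norm_num) (by omega))) hj).2.1
  · have h := Pool.Agent.X217.EK.main hJ1 hJ z
    refine (tendsto_congr' ?_).1 h
    filter_upwards [Pool.Agent.X217.EK.tendsto_ell.eventually_gt_atTop 0] with X hX
    have hs : 0 < √(5 / 2 * Pool.Agent.X217.EK.ell X) := Real.sqrt_pos.2 (by positivity)
    have e1 : Pool.Agent.X217.EK.Sq X = Finset.Icc (1 : ℤ) X ×ˢ Finset.Icc (1 : ℤ) X := by
      have e2 : Finset.Ioc (0 : ℤ) (0 + (X : ℤ)) = Finset.Icc (1 : ℤ) X := by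
        ext t
        rw [Finset.mem_Ioc, Finset.mem_Icc]
        omega
      unfold Pool.Agent.X217.EK.Sq
      rw [e2]
    rw [e1]
    congr 3
    refine Finset.filter_congr fun t _ => ?_
    refine and_congr Iff.rfl (forall_congr' fun i => ?_)
    unfold Pool.Agent.X217.EK.Zv Pool.Agent.X217.EK.LG L
    rw [E'_eq, div_le_iff₀ hs, sub_le_iff_le_add']
    rfl

end Pool.Agent.Results.MP_e23604_nt.GaussianShaThreeQuotients
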