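import Mathlib
import Pool.Agent.X217.NS.Fam
import Pool.Agent.TH841.TR.Fin2

/-!
# The normal order of the 2-primary torsion of the Tate-Shafarevich groups in one-parameter families

`E_t : y² = x (x - D(t) u₀(t)) (x - D(t) u₁(t))`, where `u₀`, `u₁` and `u₂ = u₀ - u₁` are polynomials
with integer coefficients, `u_k` being a constant times a product of `n_k` irreducible polynomials,
and `D` is a constant times a product of irreducible polynomials `g_i`, all these irreducible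
polynomials being pairwise different. `E'_t` is the quotient of `E_t` by its subgroup generated by
`(0, 0)`. There is an explicit constant `κ ≥ 0` such that for almost all `t` and all `j ≥ 1`
the groups `Ш(E_t)[2 ^ j]` and `Ш(E'_t)[2 ^ j]` are finite, the rank and `#Ш(E_t)[2 ^ j] ^ (1 / j)` are
bounded, and `log₂ #Ш(E'_t)[2 ^ j]` is asymptotic to `κ log log M`.
-/

set_option autoImplicit false

namespace Pool.Agent.Results.MP_e23604_nt.NormalOrderPencils

open Finset Polynomial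

open Pool.Agent.TH841.SH.D (Sha ShaTor rk)

/-- the curve `y² = x (x - A) (x - B)` over `ℚ` -/
def E (A B : ℤ) : WeierstrassCurve ℚ := ⟨0, -((A : ℚ) + B), 0, (A : ℚ) * B, 0⟩

/-- the quotient of `E A B` by its subgroup generated by `(0, 0)`: the curve
`y² = x³ + 2 (A + B) x² + (A - B)² x` -/
def E' (A B : ℤ) : WeierstrassCurve ℚ := ⟨0, 2 * ((A : ℚ) + B), 0, ((A : ℚ) - B) ^ 2, 0⟩

/-- `u_k = a_k ∏ f_{k,i}` -/
noncomputable def u {n : Fin 3 → ℕ} (a : Fin 3 → ℤ) (f : ∀ k : Fin 3, Fin (n k) → ℤ[X])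
    (k : Fin 3) : ℤ[X] := C (a k) * ∏ i, f k i

/-- `D = c ∏ g_i` -/
noncomputable def D {m : ℕ} (c : ℤ) (g : Fin m → ℤ[X]) : ℤ[X] := C c * ∏ i, g i

/-- `v` is a square modulo `f`, over the rationals -/
def SqMod (f v : ℤ[X]) : Prop := ∃ q : ℚ[X], f.map (Int.castRingHom ℚ) ∣
  (q ^ 2 - v.map (Int.castRingHom ℚ))

/-- modulo a factor `f` of `u_k`, the curve `y² = x (x - D u₀) (x - D u₁)` has a node whose tangent
directions are the square roots of `v_k`; so the reduction at `f` is split if and only if `v_k` is a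
square modulo `f` -/
noncomputable def v {n : Fin 3 → ℕ} (D : ℤ[X]) (a : Fin 3 → ℤ)
    (f : ∀ k : Fin 3, Fin (n k) → ℤ[X]) : Fin 3 → ℤ[X] :=
  ![-(D * u a f 1), -(D * u a f 0), D * u a f 0]

open Classical in
/-- the number of the factors of `u_k` with split multiplicative reduction -/
noncomputable def s {n : Fin 3 → ℕ} (D : ℤ[X]) (a : Fin 3 → ℤ)
    (f : ∀ k : Fin 3, Fin (n k) → ℤ[X]) (k : Fin 3) : ℕ :=
  (univ.filter (fun i => SqMod (f k i) (v D a f k))).card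

open Classical in
/-- the constant `κ = n₀ + n₁ - (n₂ + s₂) / 2 + r / 2`, where `r` is the number of the `i` such that
`u₀ u₁` is not a square modulo `g_i` -/
noncomputable def κ {n : Fin 3 → ℕ} {m : ℕ} (a : Fin 3 → ℤ) (f : ∀ k : Fin 3, Fin (n k) → ℤ[X])
    (c : ℤ) (g : Fin m → ℤ[X]) : ℝ :=
  (n 0 : ℝ) + n 1 - ((n 2 : ℝ) + s (D c g) a f 2) / 2 +
    ((univ.filter (fun i => ¬ SqMod (g i) (u a f 0 * u a f 1))).card : ℝ) / 2

/-- The pair `(A, B)` is good: the curve `E A B` is an elliptic curve, all the groups `Ш[2 ^ j]` of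
`E A B` and `E' A B` are finite, `2 ^ rank * #Ш(E A B)[2 ^ j] ^ (1 / j) ≤ 2 ^ R` for all `j ≥ 1`, and
`(κ - δ) l ≤ log₂ #Ш(E' A B)[2 ^ j] ≤ (κ + δ) l + R j` for all `j ≥ 1`. -/
def Good (R : ℕ) (κ δ l : ℝ) (A B : ℤ) : Prop :=
  A ≠ 0 ∧ B ≠ 0 ∧ A ≠ B ∧
  (∀ j : ℕ, Finite (ShaTor (E A B) (2 ^ j)) ∧ Finite (ShaTor (E' A B) (2 ^ j))) ∧
  (∀ j : ℕ, 1 ≤ j → (2 : ℝ) ^ rk (E A B) *
    (Nat.card (ShaTor (E A B) (2 ^ j)) : ℝ) ^ ((1 : ℝ) / j) ≤ 2 ^ R) ∧
  ∀ j : ℕ, 1 ≤ j → (κ - δ) * l ≤ Real.logb 2 (Nat.card (ShaTor (E' A B) (2 ^ j))) ∧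
    Real.logb 2 (Nat.card (ShaTor (E' A B) (2 ^ j))) ≤ (κ + δ) * l + R * j

open Classical in
/-- **Theorem.** Let `u_k = a_k ∏_{i < n_k} f_{k,i}`, `k = 0, 1, 2`, be polynomials with integer
coefficients with `u₀ - u₁ = u₂` and let `D = c ∏ g_i`, where `a_k, c ≠ 0` and the `f_{k,i}`, `g_i` are
irreducible polynomials of positive degree, pairwise non-associated. Let `s_k` be the number of the
`i` such that `E : y² = x (x - D u₀) (x - D u₁)` has split multiplicative reduction at `f_{k,i}`.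
Assume that `2 n_k < n₀ + n₁ + n₂` for `k = 0, 1, 2`, or that `2 n_k + s_k ≤ n₀ + n₁ + n₂` for
`k = 0, 1, 2`. Let `δ, ε > 0` and let `L` be a natural number. There is `R` such that for all large
`M` and all `|N| ≤ M ^ L`, for all `t` with `N < t ≤ N + M`, with at most `ε M` exceptions, the
pair `(D(t) u₀(t), D(t) u₁(t))` is good, with `l = log log M`. -/
theorem result {n : Fin 3 → ℕ} {m : ℕ} (a : Fin 3 → ℤ) (f : ∀ k : Fin 3, Fin (n k) → ℤ[X])
    (c : ℤ) (g : Fin m → ℤ[X]) (ha : ∀ k, a k ≠ 0) (hc : c ≠ 0)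
    (hf : ∀ k i, Irreducible (f k i) ∧ 0 < (f k i).natDegree)
    (hg : ∀ i, Irreducible (g i) ∧ 0 < (g i).natDegree)
    (hff : ∀ k i l j, (⟨k, i⟩ : Σ k : Fin 3, Fin (n k)) ≠ ⟨l, j⟩ → ¬ Associated (f k i) (f l j))
    (hgg : ∀ i j, i ≠ j → ¬ Associated (g i) (g j)) (hfg : ∀ k i j, ¬ Associated (f k i) (g j))
    (hu : u a f 0 - u a f 1 = u a f 2)
    (hn : (∀ k, 2 * n k < n 0 + n 1 + n 2) ∨
      ∀ k, 2 * n k + s (D c g) a f k ≤ n 0 + n 1 + n 2)
    (δ ε : ℝ) (L : ℕ) (hδ : 0 < δ) (hε : 0 < ε) :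
    ∃ R M0 : ℕ, ∀ (N : ℤ) (M : ℕ), M0 ≤ M → |N| ≤ (M : ℤ) ^ L →
      (((Ioc N (N + (M : ℤ))).filter (fun t => ¬ Good R (κ a f c g) δ (Real.log (Real.log M))
        ((D c g * u a f 0).eval t) ((D c g * u a f 1).eval t))).card : ℝ) ≤ ε * M := by
  have hirr : Pool.Agent.TH841.PT.Irr (Pool.Agent.TH841.TR.allf g f) := by
    refine ⟨?_, ?_, ?_⟩
    · rintro (x | x)
      · exact (hf x.1 x.2).1
      · exact (hg x).1
    · rintro (x | x)
      · exact (hf x.1 x.2).2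
      · exact (hg x).2
    · rintro (x | x) (y | y) hne has
      · exact hff x.1 x.2 y.1 y.2 (fun h => hne (by rw [show x = y from h])) has
      · exact hfg x.1 x.2 y has
      · exact hfg y.1 y.2 x has.symm
      · exact hgg x y (fun h => hne (by rw [h])) has
  have hn' : (∀ k, 2 * n k < n 0 + n 1 + n 2) ∨
      Pool.Agent.TH841.TR.Bal (Pool.Agent.TH841.LS.DG c g) a f := by
    rcases hn with hn | hn
    · exact Or.inl hn
    · exact Or.inr (Pool.Agent.TH841.TR.bal_of (v := v (D c g) a f) rfl rfl rfl hn)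
  exact Pool.Agent.X217.NS.pencil a f c g ha hc hirr hu hn' δ ε L hδ hε

end Pool.Agent.Results.MP_e23604_nt.NormalOrderPencils
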