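import Mathlib
import Pool.Agent.TH344.SG.Bin
import Pool.Agent.TH841.PM.PenZ

/-!
# Tate-Shafarevich groups of the rational fibres of elliptic surfaces with full 2-torsion

Let `n ≥ 2` be even, let `l k i` (`k = 0, 1, 2`, `i = 1, ..., n`) be pairwise non-proportional linear
forms in `u, v` with integer coefficients, let `m k i` be odd, and let
`F_k = a_k ∏_i (l k i) ^ (m k i)` be binary forms with `F_0 - F_1 = F_2`. The curves
`y² = x (x - F_0 (u, v)) (x - F_1 (u, v))` are the fibres at the rational points `t = u / v` of an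
elliptic surface over the projective line with full `2`-torsion. We bound the averages of
`2 ^ rank * #Ш[2 ^ k] ^ (1 / k)` over all the rational fibres with `(u, v)` in a short square.
-/

set_option autoImplicit false

namespace Pool.Agent.Results.MP_e23604_nt.RationalFibres

open Finset

open Pool.Agent.TH841.SH.D (Sha ShaTor HasDiv rk)

/-- the curve `y² = x (x - A) (x - B)` over `ℚ` -/
def E (A B : ℤ) : WeierstrassCurve ℚ := ⟨0, -((A : ℚ) + B), 0, (A : ℚ) * B, 0⟩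

/-- the value at `(u, v)` of the binary form `F_k = a_k ∏_i (l k i) ^ (m k i)`, where
`l (k, i) = (α, β)` stands for the linear form `α u + β v` -/
def F {n : ℕ} (l : Fin 3 × Fin n → ℤ × ℤ) (m : Fin 3 × Fin n → ℕ) (a : Fin 3 → ℤ) (k : Fin 3)
    (u v : ℤ) : ℤ :=
  a k * ∏ i : Fin n, ((l (k, i)).1 * u + (l (k, i)).2 * v) ^ m (k, i)

/-- the fibre at `(u, v)` -/
def fib {n : ℕ} (l : Fin 3 × Fin n → ℤ × ℤ) (m : Fin 3 × Fin n → ℕ) (a : Fin 3 → ℤ)
    (t : ℤ × ℤ) : WeierstrassCurve ℚ := E (F l m a 0 t.1 t.2) (F l m a 1 t.1 t.2)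

open Classical in
/-- the coprime pairs `(u, v)` of integers with `U < u ≤ U + X`, `V < v ≤ V + X` for which the fibre
is an elliptic curve -/
noncomputable def Par {n : ℕ} (l : Fin 3 × Fin n → ℤ × ℤ) (m : Fin 3 × Fin n → ℕ) (a : Fin 3 → ℤ)
    (X : ℕ) (U V : ℤ) : Finset (ℤ × ℤ) :=
  (Ioc U (U + X) ×ˢ Ioc V (V + X)).filter (fun t : ℤ × ℤ => IsCoprime t.1 t.2 ∧
    ∀ k, F l m a k t.1 t.2 ≠ 0)

open Classical in
/-- **Theorem.** Let `n` be even, let `l k i`, `k = 0, 1, 2`, `i = 1, ..., n`, be pairwise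
non-proportional linear forms with integer coefficients, `m k i` odd natural numbers, `a_k` nonzero
integers and `F_k = a_k ∏_i (l k i) ^ (m k i)`, with `F_0 - F_1 = F_2`. For every `L` there is `C`
such that for all `X ≥ 1` and `|U|, |V| ≤ X ^ L` and the curves
`W_(u,v) : y² = x (x - F_0 (u, v)) (x - F_1 (u, v))` with coprime `u, v`, `U < u ≤ U + X`,
`V < v ≤ V + X`: all the groups `Ш(W_(u,v))[2 ^ k]` are finite, the sum of
`2 ^ rank * #Ш(W_(u,v))[2 ^ k] ^ (1 / k)` is at most `C X²` for all `k ≥ 1`, and at most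
`C X² / 2 ^ (r + q)` of the curves have rank at least `r` and a subgroup `(ℚ₂ / ℤ₂) ^ q` in the
Tate-Shafarevich group. -/
theorem result {n : ℕ} (hn : Even n) (l : Fin 3 × Fin n → ℤ × ℤ) (m : Fin 3 × Fin n → ℕ)
    (hm : ∀ j, Odd (m j)) (a : Fin 3 → ℤ) (ha : ∀ k, a k ≠ 0)
    (hl : ∀ i j, i ≠ j → (l i).1 * (l j).2 ≠ (l j).1 * (l i).2)
    (hF : ∀ u v : ℤ, F l m a 0 u v - F l m a 1 u v = F l m a 2 u v) (L : ℕ) :
    ∃ C : ℝ, ∀ (X : ℕ) (U V : ℤ), 1 ≤ X → U.natAbs ≤ X ^ L → V.natAbs ≤ X ^ L →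
      (∀ t ∈ Par l m a X U V, ∀ k : ℕ, Finite (ShaTor (fib l m a t) (2 ^ k))) ∧
      (∀ k : ℕ, 1 ≤ k → ∑ t ∈ Par l m a X U V, (2 : ℝ) ^ rk (fib l m a t) *
        (Nat.card (ShaTor (fib l m a t) (2 ^ k)) : ℝ) ^ ((1 : ℝ) / k) ≤ C * (X : ℝ) ^ 2) ∧
      ∀ r q : ℕ, (((Par l m a X U V).filter (fun t => r ≤ rk (fib l m a t) ∧
        HasDiv (fib l m a t) q)).card : ℝ) ≤ C * (X : ℝ) ^ 2 / 2 ^ (r + q) := by
  obtain ⟨C, hC⟩ := Pool.Agent.TH344.SG.bin hn l m hm a ha hl hF L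
  refine ⟨C, fun X U V hX hU hV => ?_⟩
  have h1 := hC X U V hX hU hV
  have h0 : ∀ t ∈ Par l m a X U V, F l m a 0 t.1 t.2 ≠ 0 ∧ F l m a 1 t.1 t.2 ≠ 0 ∧
      F l m a 0 t.1 t.2 ≠ F l m a 1 t.1 t.2 := by
    intro t ht
    unfold Par at ht
    rw [mem_filter] at ht
    obtain ⟨-, -, h⟩ := ht
    refine ⟨h 0, h 1, fun h' => h 2 ?_⟩
    rw [← hF, h', sub_self]
  have h2 : ∑ t ∈ Par l m a X U V, Pool.Agent.W307.SE.SN (F l m a 0 t.1 t.2)
      (F l m a 1 t.1 t.2) ^ 1 ≤ C * (X : ℝ) ^ 2 := by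
    simp only [pow_one]
    refine le_trans (le_of_eq ?_) h1
    unfold Par
    refine sum_congr ?_ fun _ _ => rfl
    ext t
    simp only [mem_filter]
    rfl
  obtain ⟨k1, k2, k3⟩ := Pool.Agent.TH841.SH.family (Par l m a X U V) (fib l m a)
    (fun t => Pool.Agent.W307.SE.SN (F l m a 0 t.1 t.2) (F l m a 1 t.1 t.2)) (C * (X : ℝ) ^ 2) 1
    (fun t ht => Pool.Agent.TH841.PT.bd_EQ (h0 t ht).1 (h0 t ht).2.1 (h0 t ht).2.2) h2
  refine ⟨k1, fun k hk => ?_, fun r q => ?_⟩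
  · have := k2 k hk
    simp only [pow_one] at this
    exact this
  · have := k3 r q
    rw [one_mul] at this
    convert this

end Pool.Agent.Results.MP_e23604_nt.RationalFibres
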